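import Pool.Agent.W275.UB.Stm

set_option autoImplicit false

namespace Pool.Agent.W405.UB

open MvPolynomial Pool.Agent.H936R2 Pool.Agent.W275.UB

lemma eval_bind {R : Type} [CommRing R] {n : ℕ} (Q : Fin n → MvPolynomial (Fin n) R)
    (g : MvPolynomial (Fin n) R) (z : Fin n → R) :
    eval z (bind₁ Q g) = eval (fun j => eval z (Q j)) g := by
  induction g using MvPolynomial.induction_on with
  | C a => simp
  | add p q hp hq => simp only [map_add, hp, hq]
  | mul_X p j hp => simp only [map_mul, hp, bind₁_X_right, eval_X]

/-- chain rule -/
lemma pderiv_bind {R : Type} [CommRing R] {n : ℕ} (Q : Fin n → MvPolynomial (Fin n) R)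
    (g : MvPolynomial (Fin n) R) (j : Fin n) :
    pderiv j (bind₁ Q g) = ∑ l, bind₁ Q (pderiv l g) * pderiv j (Q l) := by
  induction g using MvPolynomial.induction_on with
  | C a => simp
  | add p q hp hq => simp only [map_add, hp, hq, add_mul, Finset.sum_add_distrib]
  | mul_X p i hp =>
    rw [map_mul, bind₁_X_right, pderiv_mul, hp]
    have h1 : ∀ l, bind₁ Q (pderiv l (p * X i)) * pderiv j (Q l) =
        bind₁ Q (pderiv l p) * pderiv j (Q l) * Q i +
          (if l = i then bind₁ Q p * pderiv j (Q i) else 0) := by
      intro l
      rw [pderiv_mul, map_add, map_mul, map_mul, bind₁_X_right]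
      by_cases h : l = i
      · subst h
        rw [pderiv_X_self, map_one, if_pos rfl]
        ring
      · rw [pderiv_X_of_ne (Ne.symm h), map_zero, if_neg h]
        ring
    simp only [h1, Finset.sum_add_distrib, Finset.sum_ite_eq', Finset.mem_univ, if_true,
      Finset.sum_mul]

theorem main : S_itr := by
  intro R _ n d P
  have hpt : ∀ k z, pt (itr P k) z = (pt P)^[k] z := by
    intro k
    induction k with
    | zero =>
      intro z
      funext i
      simp [pt, itr]
    | succ k ih =>
      intro z
      rw [Function.iterate_succ_apply', ← ih]
      funext i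
      exact eval_bind (itr P k) (P i) z
  refine ⟨hpt, ?_, ?_, ?_⟩
  · intro k
    induction k with
    | zero =>
      intro z
      ext i j
      simp only [jac, itr, jk]
      by_cases h : i = j
      · subst h
        rw [pderiv_X_self, map_one, Matrix.one_apply_eq]
      · rw [pderiv_X_of_ne h, map_zero, Matrix.one_apply_ne h]
    | succ k ih =>
      intro z
      ext i j
      simp only [jk]
      rw [Matrix.mul_apply, ← ih, ← hpt]
      simp only [jac, itr]
      rw [pderiv_bind, map_sum]
      refine Finset.sum_congr rfl fun l _ => ?_
      rw [map_mul, eval_bind]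
      rfl
  · intro hP k
    induction k with
    | zero =>
      intro i
      simpa [itr] using isHomogeneous_X R i
    | succ k ih =>
      intro i
      rw [pow_succ]
      have h := (hP i).aeval (itr P k) ih
      exact h
  · intro R' _ φ k
    induction k with
    | zero =>
      intro i
      simp [itr]
    | succ k ih =>
      intro i
      simp only [itr]
      rw [map_bind₁]
      simp only [ih]

end Pool.Agent.W405.UB
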